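import Pool.Agent.H62.KI.PULL

/-!
# Project KEW-I, row IMP: the restriction maps of the improved Milnor K-sheaf
-/

namespace Pool.Agent.H62.KI

open AlgebraicGeometry CategoryTheory CategoryTheory.Limits TopologicalSpace Opposite
open Pool.Agent.H15.KS Pool.Agent.H62.KB Pool.Agent.H15.KI

universe u v w

noncomputable section

section abelian

variable {𝒜 : Type v} [Category.{w} 𝒜] [Abelian 𝒜]

lemma mono_eqι {A B : 𝒜} (f g : A ⟶ B) : Mono (eqι f g) := inferInstanceAs (Mono (kernel.ι (f - g)))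

lemma eqι_eq {A B : 𝒜} (f g : A ⟶ B) : eqι f g ≫ f = eqι f g ≫ g := by
  have h : kernel.ι (f - g) ≫ (f - g) = 0 := kernel.condition _
  rw [Preadditive.comp_sub, sub_eq_zero] at h
  exact h

lemma exists_lift_eq {A B C : 𝒜} (f g : A ⟶ B) (k : C ⟶ A) (h : k ≫ f = k ≫ g) :
    ∃ l : C ⟶ eqz f g, l ≫ eqι f g = k :=
  ⟨kernel.lift (f - g) k (by rw [Preadditive.comp_sub, h, sub_self]), kernel.lift_ι _ _ _⟩

end abelian

/-- the push-forward of a monomorphism -/
lemma mono_push {X Y : Scheme.{u}} (i : Y ⟶ X) {F G : AbSh Y} (k : F ⟶ G) [Mono k] :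
    Mono ((pushF i).map k) := by
  have h : (pushF i).IsRightAdjoint :=
    inferInstanceAs (TopCat.Sheaf.pushforward AddCommGrpCat.{u} i.base).IsRightAdjoint
  infer_instance

/-- lifting to the image of an equalizer -/
lemma exists_lift_functor {𝒜 : Type v} [Category.{w} 𝒜] [Abelian 𝒜] {ℬ : Type v} [Category.{w} ℬ]
    [Abelian ℬ] (P : 𝒜 ⥤ ℬ) [P.Additive] [P.IsRightAdjoint] {F G : 𝒜} (f g : F ⟶ G) {C : ℬ}
    (k : C ⟶ P.obj F) (h : k ≫ P.map f = k ≫ P.map g) :
    ∃ l : C ⟶ P.obj (eqz f g), l ≫ P.map (eqι f g) = k := by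
  have hlim : PreservesLimit (parallelPair (f - g) 0) P := inferInstance
  have hk := KernelFork.mapIsLimit _ (kernelIsKernel (f - g)) P
  have h0 : k ≫ P.map (f - g) = 0 := by
    rw [Functor.map_sub, Preadditive.comp_sub, h, sub_self]
  obtain ⟨l, hl⟩ := KernelFork.IsLimit.lift' hk k h0
  exact ⟨l, hl⟩

lemma exists_lift_push {X Y : Scheme.{u}} (i : Y ⟶ X) {F G : AbSh Y} (f g : F ⟶ G) {C : AbSh X}
    (k : C ⟶ (pushF i).obj F) (h : k ≫ (pushF i).map f = k ≫ (pushF i).map g) :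
    ∃ l : C ⟶ (pushF i).obj (eqz f g), l ≫ (pushF i).map (eqι f g) = k := by
  have hadj : (pushF i).IsRightAdjoint :=
    inferInstanceAs (TopCat.Sheaf.pushforward AddCommGrpCat.{u} i.base).IsRightAdjoint
  have hadd : (pushF i).Additive := { map_add := rfl }
  exact exists_lift_functor (pushF i) f g k h

lemma sq_aux {ℬ : Type v} [Category.{w} ℬ] {K F G P Q : ℬ} (ι : K ⟶ F) (p : F ⟶ P) (a : P ⟶ Q)
    (b : F ⟶ G) (c : G ⟶ Q) (h : b ≫ c = p ≫ a) : (ι ≫ p) ≫ a = (ι ≫ b) ≫ c := by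
  rw [Category.assoc, Category.assoc, h]

/-- the composite of the two natural maps, `R → R(t₁) → R(t₁)(t₂)` -/
lemma k0_k1 (n : ℕ) : k0.{u} n ≫ k1 n = k0 n ≫ k2 n := by
  refine NatTrans.ext (funext fun R => ?_)
  have h1 : (k0.{u} n ≫ k1 n).app R = (MKF n).map (ιF.app R) ≫ (MKF n).map (ιF.app (NagF.obj R)) := rfl
  have h2 : (k0.{u} n ≫ k2 n).app R = (MKF n).map (ιF.app R) ≫ (MKF n).map (NagF.map (ιF.app R)) := rfl
  rw [h1, h2, ← Functor.map_comp, ← Functor.map_comp]
  have h3 : (𝟭 CommRingCat.{u}).map (ιF.app R) ≫ ιF.app (NagF.obj R) =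
      ιF.app R ≫ NagF.map (ιF.app R) := ιF.naturality (ιF.app R)
  exact congrArg (MKF n).map h3

theorem onSh_comp {Φ Ψ Θ : CommRingCat.{u} ⥤ AddCommGrpCat.{u}} (α : Φ ⟶ Ψ) (β : Ψ ⟶ Θ)
    (X : Scheme.{u}) : onSh (α ≫ β) X = onSh α X ≫ onSh β X :=
  (presheafToSheaf (Opens.grothendieckTopology X) AddCommGrpCat.{u}).map_comp
    (Functor.whiskerLeft X.presheaf α) (Functor.whiskerLeft X.presheaf β)

theorem improved_c (n : ℕ) (X : Scheme.{u}) : (improved n).c X ≫ inKI n X = onSh (k0 n) X := by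
  have h : ∃ g : K X n ⟶ KI n X, g ≫ inKI n X = onSh (k0 n) X := by
    refine exists_lift_eq (onSh (k1 n) X) (onSh (k2 n) X) (onSh (k0 n) X) ?_
    rw [← onSh_comp, ← onSh_comp, k0_k1]
  exact the_spec h

theorem improved_res (n : ℕ) {X Y : Scheme.{u}} (i : Y ⟶ X) :
    (improved n).res i ≫ (pushF i).map (inKI n Y) = inKI n X ≫ pull (NagF ⋙ MKF n) i := by
  have h : ∃ g : KI n X ⟶ push i (KI n Y), g ≫ (pushF i).map (inKI n Y) =
      inKI n X ≫ pull (NagF ⋙ MKF n) i := by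
    refine exists_lift_push i (onSh (k1 n) Y) (onSh (k2 n) Y) (inKI n X ≫ pull (NagF ⋙ MKF n) i) ?_
    have h1 := sq_aux (inKI n X) (pull (NagF ⋙ MKF n) i) _ _ _ (pull_naturality (k1 n) i)
    have h2 := sq_aux (inKI n X) (pull (NagF ⋙ MKF n) i) _ _ _ (pull_naturality (k2 n) i)
    refine h1.trans (Eq.trans ?_ h2.symm)
    exact congrArg (fun m => m ≫ pull (NagF ⋙ NagF ⋙ MKF n) i) (eqι_eq _ _)
  exact the_spec h

lemma mono_inKI (n : ℕ) (X : Scheme.{u}) : Mono (inKI n X) := mono_eqι _ _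

theorem improved_res_comp (n : ℕ) {X Y Z : Scheme.{u}} (j : Z ⟶ Y) (i : Y ⟶ X) :
    (improved n).res (j ≫ i) = (improved n).res i ≫ (pushF i).map ((improved n).res j) := by
  have hm : Mono ((pushF (j ≫ i)).map (inKI n Z)) := by
    have := mono_inKI n Z
    exact mono_push (j ≫ i) (inKI n Z)
  refine hm.right_cancellation _ _ ?_
  refine (improved_res n (j ≫ i)).trans ?_
  have e1 : ((improved n).res i ≫ (pushF i).map ((improved n).res j)) ≫
      (pushF (j ≫ i)).map (inKI n Z) = (improved n).res i ≫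
        (pushF i).map ((improved n).res j ≫ (pushF j).map (inKI n Z)) := rfl
  refine Eq.trans ?_ e1.symm
  have e2 : (improved n).res i ≫ (pushF i).map (inKI n Y ≫ pull (NagF ⋙ MKF n) j) =
      ((improved n).res i ≫ (pushF i).map (inKI n Y)) ≫ (pushF i).map (pull (NagF ⋙ MKF n) j) := rfl
  have e3 := congrArg (fun m => (improved n).res i ≫ (pushF i).map m) (improved_res n j)
  have e4 := congrArg (fun m => m ≫ (pushF i).map (pull (NagF ⋙ MKF n) j)) (improved_res n i)
  refine Eq.trans ?_ (e3.trans (e2.trans e4)).symm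
  have e5 := congrArg (fun m => inKI n X ≫ m) (pull_comp (NagF ⋙ MKF n) j i)
  exact e5.trans (Category.assoc _ _ _).symm

theorem improved_c_res (n : ℕ) {X Y : Scheme.{u}} (i : Y ⟶ X) :
    (improved n).c X ≫ (improved n).res i = pull (MKF n) i ≫ (pushF i).map ((improved n).c Y) := by
  have hm : Mono ((pushF i).map (inKI n Y)) := by
    have := mono_inKI n Y
    exact mono_push i (inKI n Y)
  refine hm.right_cancellation _ _ ?_
  have e1 : ((improved n).c X ≫ (improved n).res i) ≫ (pushF i).map (inKI n Y) =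
      (improved n).c X ≫ ((improved n).res i ≫ (pushF i).map (inKI n Y)) := Category.assoc _ _ _
  have e2 : (pull (MKF n) i ≫ (pushF i).map ((improved n).c Y)) ≫ (pushF i).map (inKI n Y) =
      pull (MKF n) i ≫ (pushF i).map ((improved n).c Y ≫ inKI n Y) := rfl
  refine e1.trans (Eq.trans ?_ e2.symm)
  have e3 := congrArg (fun m => (improved n).c X ≫ m) (improved_res n i)
  have e4 := congrArg (fun m => pull (MKF n) i ≫ (pushF i).map m) (improved_c n Y)
  have e5 := pull_naturality (k0 n) i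
  have e6 := congrArg (fun m => m ≫ pull (NagF ⋙ MKF n) i) (improved_c n X)
  exact e3.trans ((Category.assoc _ _ _).symm.trans (e6.trans (e5.trans e4.symm)))

theorem pf_IMP : T_PULL.{u} → T_IMP.{u} := fun _ n =>
  ⟨improved_c n, fun _ _ i => improved_res n i, fun _ _ _ j i => improved_res_comp n j i,
    fun _ _ i => improved_c_res n i⟩

end

end Pool.Agent.H62.KI
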