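import Pool.Agent.H62.KI.MDX
import Pool.Agent.H62.KI.IMP
import Pool.Agent.H15.KI.TargetsD

/-!
# Project KEW-I, row MDX: the theorem
-/

open CategoryTheory CategoryTheory.Limits TopologicalSpace Opposite AlgebraicGeometry
open Pool.Agent.H15.KS Pool.Agent.H62.KB Pool.Agent.H15.KI Pool.Agent.H62
open Pool.Agent.H84.KEW (LocSurjAt Shf)
open Pool.Agent.H12.KG (Sp)

universe u v w

namespace Pool.Agent.H62.KI

noncomputable section

section top

variable {e : ℕ} (T : Version.{u} (e + 1)) (X : Scheme.{u}) [IsNoetherian X]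

/-- The augmentation in the old layer. -/
def tOld : T.S X ⟶ Pool.Agent.H17.KW.D X (e + 1) (e + 1) :=
  aug T X ≫ (Pool.Agent.H84.KB.isoC X (e + 1) (e + 1)).hom

theorem isRes_old (hG : GerstenT T X) :
    Pool.Agent.H17.KW.IsRes (Pool.Agent.H17.KW.D X (e + 1)) (Pool.Agent.H17.KW.dD X (e + 1)) e
      (tOld T X) := by
  have h1 := (Pool.Agent.H12.KB.isRes_iff
    fun s hs => Pool.Agent.H84.KB.isZero_C X (e + 1) s hs).mp hG
  refine Pool.Agent.H12.KB.isRes_of_iso h1 (Pool.Agent.H84.KB.isoC X (e + 1))
    (Pool.Agent.H84.KB.dC_isoC X (e + 1)) (Iso.refl (T.S X)) ?_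
  exact (Category.id_comp _).symm

theorem c_tOld (h : T.c X ≫ aug T X = top X (e + 1)) :
    ((Pool.Agent.H84.KB.isoK X (e + 1)).inv ≫ T.c X) ≫ tOld T X =
      Pool.Agent.H17.KW.topSh X (e + 1) := by
  have e1 : ((Pool.Agent.H84.KB.isoK X (e + 1)).inv ≫ T.c X) ≫ tOld T X =
      (Pool.Agent.H84.KB.isoK X (e + 1)).inv ≫ (T.c X ≫ aug T X) ≫
        (Pool.Agent.H84.KB.isoC X (e + 1) (e + 1)).hom := by
    unfold tOld
    simp only [Category.assoc]
  rw [e1, h, Iso.inv_comp_eq]
  exact Pool.Agent.H84.KB.top_isoC X (e + 1)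

end top

/-- MDX: the data for the general resolution, from a good version. -/
theorem pf_MDX : T_PNT.{u} → T_MDX'.{u} := by
  intro _ A _ _ _ _ _ X _ f π e q n _ hπ T hT hmono hG htop
  have hcl : IsClosedImmersion (thickι f n) := Clos.isClosedImmersion_thickι f n
  have hi : Topology.IsClosedEmbedding (thickι f n).base := hcl.isClosedEmbedding
  have hπm : π ∈ IsLocalRing.maximalIdeal A :=
    (IsLocalRing.mem_maximalIdeal π).2 hπ.not_isUnit
  have hepi : e = 0 → ∀ Y : Scheme.{u}, Epi (T.c Y) := fun he Y => hT.epi (by omega) Y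
  let μ : Md f π e q n :=
    { K := T.S X
      F := push (thickι f n) (Q T (thick f n) q)
      t := tOld T X
      ρ := redQ T (thickι f n) q
      c := (Pool.Agent.H84.KB.isoK X (e + 1)).inv ≫ T.c X
      c' := cPr T (thickι f n) q
      res := isRes_old T X hG
      ct := c_tOld T X htop
      cρ := c_rho T hT (thickι f n) q
      q0 := Pool.Agent.H17.KW.dirIm_nsmul (thickι f n) (Q T (thick f n) q) q (nsmul_id_mdq q)
      out := by
        intro U hU s
        refine Pool.Agent.H84.KSJ.dirIm_eq_zero (thickι f n) (Q T (thick f n) q) U (fun y hy => ?_) s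
        exact hU _ hy (Pool.Agent.H84.KSJ.sp_thick f hπm n y)
      surj := fun x hx => locSurjAt_iso _ _ (hT.surj X x hx)
      surj' := by
        intro x hx
        refine locSurjAt_cPr T (thickι f n) hi q x (fun y hy => ?_)
        subst hy
        exact hT.surj (thick f n) y (inf_of_morph (thickι f n) y hx)
      inj' := by
        intro x hx
        refine injAt_cPr T (thickι f n) hi q x (fun y hy => ?_) (fun y hy => ?_)
        · subst hy
          exact hT.surj (thick f n) y (inf_of_morph (thickι f n) y hx)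
        · subst hy
          exact hT.inj (thick f n) y (inf_of_morph (thickι f n) y hx)
      zero := by
        intro he
        have h1 : Epi (T.c X) := hepi he X
        have h2 : Epi (T.c (thick f n)) := hepi he (thick f n)
        have h3 : Mono (T.c (thick f n)) := hmono he (thick f n)
        have h4 : IsIso (T.c (thick f n)) := isIso_of_mono_of_epi _
        have h5 : Epi (cm (T.c (thick f n)) q) := epi_cm _ q
        have h6 : Mono (cm (T.c (thick f n)) q) := mono_cm _ q
        have h7 : PreservesFiniteColimits (pushF (thickι f n)) := (Clos.exact_R _ hi).2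
        have h8 : Epi ((pushF (thickι f n)).map (cm (T.c (thick f n)) q)) := inferInstance
        have h9 : Mono ((pushF (thickι f n)).map (cm (T.c (thick f n)) q)) :=
          mono_push (thickι f n) _
        have e1 : Epi (Pool.Agent.H84.KB.isoPush (thickι f n) q (e + 1)).inv :=
          (Pool.Agent.H84.KB.isoPush (thickι f n) q (e + 1)).symm.isIso_hom.epi_of_iso
        have e2 : Mono (Pool.Agent.H84.KB.isoPush (thickι f n) q (e + 1)).inv :=
          (Pool.Agent.H84.KB.isoPush (thickι f n) q (e + 1)).symm.isIso_hom.mono_of_iso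
        exact ⟨epi_comp _ _,
          @epi_comp _ _ _ _ _ (Pool.Agent.H84.KB.isoPush (thickι f n) q (e + 1)).inv e1
            ((pushF (thickι f n)).map (cm (T.c (thick f n)) q)) h8,
          @mono_comp _ _ _ _ _ (Pool.Agent.H84.KB.isoPush (thickι f n) q (e + 1)).inv e2
            ((pushF (thickι f n)).map (cm (T.c (thick f n)) q)) h9⟩ }
  exact ⟨μ, Iso.refl _, Iso.refl _, (Category.id_comp _).symm,
    (Category.comp_id _).trans (Category.id_comp _).symm⟩

end

end Pool.Agent.H62.KI
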