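import Pool.Agent.H15.KI.TargetsA
import Pool.Agent.H84.KB.Q

/-!
# Project KEW-I, row PULL: the morphisms `pull`
-/

namespace Pool.Agent.H62.KI

open AlgebraicGeometry CategoryTheory CategoryTheory.Limits TopologicalSpace Opposite
open Pool.Agent.H15.KS Pool.Agent.H62.KB Pool.Agent.H15.KI

universe u

noncomputable section

variable (Φ Ψ : CommRingCat.{u} ⥤ AddCommGrpCat.{u})

/-- The map of presheaves. -/
def pullPre {X Y : Scheme.{u}} (i : Y ⟶ X) : X.presheaf ⋙ Φ ⟶ (push i (Sh Φ Y)).obj where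
  app U := Φ.map (i.app U.unop) ≫ toShf (Y.presheaf ⋙ Φ) (i ⁻¹ᵁ U.unop)
  naturality {U V} g := by
    have h1 := (toSheafify (Opens.grothendieckTopology Y) (Y.presheaf ⋙ Φ)).naturality
      ((Opens.map i.base).op.map g)
    have h2 : X.presheaf.map g ≫ i.app V.unop =
        i.app U.unop ≫ Y.presheaf.map ((Opens.map i.base).op.map g) := i.naturality g
    have h3 : Φ.map (X.presheaf.map g) ≫ Φ.map (i.app V.unop) =
        Φ.map (i.app U.unop) ≫ Φ.map (Y.presheaf.map ((Opens.map i.base).op.map g)) := by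
      rw [← Φ.map_comp, ← Φ.map_comp, h2]
    refine (Category.assoc _ _ _).symm.trans ?_
    refine Eq.trans ?_ (Category.assoc _ _ _).symm
    refine (congrArg (fun m => m ≫ toShf (Y.presheaf ⋙ Φ) (i ⁻¹ᵁ V.unop)) h3).trans ?_
    refine (Category.assoc _ _ _).trans ?_
    exact congrArg (fun m => Φ.map (i.app U.unop) ≫ m) h1

/-- The morphism of sheaves. -/
def pull' {X Y : Scheme.{u}} (i : Y ⟶ X) : Sh Φ X ⟶ push i (Sh Φ Y) :=
  ⟨sheafifyLift (Opens.grothendieckTopology X) (pullPre Φ i) (push i (Sh Φ Y)).2⟩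

theorem pull'_spec {X Y : Scheme.{u}} (i : Y ⟶ X) (U : X.Opens) (a : Φ.obj Γ(X, U)) :
    ap (onSecs (pull' Φ i) U) (ap (toShf (X.presheaf ⋙ Φ) U) a) =
      ap (toShf (Y.presheaf ⋙ Φ) (i ⁻¹ᵁ U)) (ap (Φ.map (i.app U)) a) := by
  have h := toSheafify_sheafifyLift (Opens.grothendieckTopology X) (pullPre Φ i)
    (push i (Sh Φ Y)).2
  have h1 := congrArg (fun m => m.app (op U)) h
  exact ConcreteCategory.congr_hom h1 a

theorem pull_spec {X Y : Scheme.{u}} (i : Y ⟶ X) (U : X.Opens) (a : Φ.obj Γ(X, U)) :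
    ap (onSecs (pull Φ i) U) (ap (toShf (X.presheaf ⋙ Φ) U) a) =
      ap (toShf (Y.presheaf ⋙ Φ) (i ⁻¹ᵁ U)) (ap (Φ.map (i.app U)) a) := by
  have h : ∃ g : Sh Φ X ⟶ push i (Sh Φ Y), ∀ (U : X.Opens) (a : Φ.obj Γ(X, U)),
      ap (onSecs g U) (ap (toShf (X.presheaf ⋙ Φ) U) a) =
        ap (toShf (Y.presheaf ⋙ Φ) (i ⁻¹ᵁ U)) (ap (Φ.map (i.app U)) a) :=
    ⟨pull' Φ i, pull'_spec Φ i⟩
  exact the_spec h U a

theorem pull_comp {X Y Z : Scheme.{u}} (j : Z ⟶ Y) (i : Y ⟶ X) :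
    pull Φ (j ≫ i) = pull Φ i ≫ (pushF i).map (pull Φ j) := by
  refine Pool.Agent.H84.KB.shf_ext X fun U a => ?_
  refine (pull_spec Φ (j ≫ i) U a).trans ?_
  have h1 : ap (onSecs (pull Φ i ≫ (pushF i).map (pull Φ j)) U) (ap (toShf (X.presheaf ⋙ Φ) U) a) =
      ap (onSecs (pull Φ j) (i ⁻¹ᵁ U)) (ap (onSecs (pull Φ i) U)
        (ap (toShf (X.presheaf ⋙ Φ) U) a)) := rfl
  refine Eq.trans ?_ h1.symm
  have h2 := congrArg (fun z => ap (onSecs (pull Φ j) (i ⁻¹ᵁ U)) z) (pull_spec Φ i U a)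
  have h3 := pull_spec Φ j (i ⁻¹ᵁ U) (ap (Φ.map (i.app U)) a)
  refine Eq.trans ?_ (h2.trans h3).symm
  have h4 : (j ≫ i).app U = i.app U ≫ j.app (i ⁻¹ᵁ U) := Scheme.Hom.comp_app j i U
  have h5 : Φ.map ((j ≫ i).app U) = Φ.map (i.app U) ≫ Φ.map (j.app (i ⁻¹ᵁ U)) := by
    rw [← Φ.map_comp]
    exact congrArg Φ.map h4
  exact congrArg (fun m => ap (toShf (Z.presheaf ⋙ Φ) ((j ≫ i) ⁻¹ᵁ U)) (ap m a)) h5

variable {Φ Ψ}

theorem onSh_toShf (α : Φ ⟶ Ψ) (X : Scheme.{u}) (U : X.Opens) (a : Φ.obj Γ(X, U)) :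
    ap (onSecs (onSh α X) U) (ap (toShf (X.presheaf ⋙ Φ) U) a) =
      ap (toShf (X.presheaf ⋙ Ψ) U) (ap (α.app Γ(X, U)) a) := by
  have h := toSheafify_naturality (Opens.grothendieckTopology X) (Functor.whiskerLeft X.presheaf α)
  have h1 := congrArg (fun m => m.app (op U)) h
  exact (ConcreteCategory.congr_hom h1 a).symm

theorem pull_naturality (α : Φ ⟶ Ψ) {X Y : Scheme.{u}} (i : Y ⟶ X) :
    onSh α X ≫ pull Ψ i = pull Φ i ≫ (pushF i).map (onSh α Y) := by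
  refine Pool.Agent.H84.KB.shf_ext X fun U a => ?_
  have h1 : ap (onSecs (onSh α X ≫ pull Ψ i) U) (ap (toShf (X.presheaf ⋙ Φ) U) a) =
      ap (onSecs (pull Ψ i) U) (ap (onSecs (onSh α X) U) (ap (toShf (X.presheaf ⋙ Φ) U) a)) := rfl
  have h2 : ap (onSecs (pull Φ i ≫ (pushF i).map (onSh α Y)) U) (ap (toShf (X.presheaf ⋙ Φ) U) a) =
      ap (onSecs (onSh α Y) (i ⁻¹ᵁ U)) (ap (onSecs (pull Φ i) U)
        (ap (toShf (X.presheaf ⋙ Φ) U) a)) := rfl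
  refine h1.trans (Eq.trans ?_ h2.symm)
  refine (congrArg (fun z => ap (onSecs (pull Ψ i) U) z) (onSh_toShf α X U a)).trans ?_
  refine (pull_spec Ψ i U _).trans ?_
  refine Eq.trans ?_ (congrArg (fun z => ap (onSecs (onSh α Y) (i ⁻¹ᵁ U)) z)
    (pull_spec Φ i U a)).symm
  refine Eq.trans ?_ (onSh_toShf α Y (i ⁻¹ᵁ U) _).symm
  have h3 := ConcreteCategory.congr_hom (α.naturality (i.app U)) a
  exact congrArg (fun z => ap (toShf (Y.presheaf ⋙ Ψ) (i ⁻¹ᵁ U)) z) h3.symm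

theorem pf_PULL : T_PULL.{u} :=
  ⟨fun Φ _ _ i U a => pull_spec Φ i U a, fun Φ _ _ _ j i => pull_comp Φ j i,
    fun _ _ α _ _ i => pull_naturality α i⟩

end

end Pool.Agent.H62.KI
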