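import Pool.Agent.H62.KI.TRN1
import Pool.Agent.H15.KI.TargetsC

/-!
# Project KEW-I, row TRN: the transition maps
-/

open CategoryTheory CategoryTheory.Limits TopologicalSpace Opposite AlgebraicGeometry
open Pool.Agent.H15.KS Pool.Agent.H62.KB Pool.Agent.H15.KI Pool.Agent.H62

universe u v w v' w'

namespace Pool.Agent.H62.KI

noncomputable section

section general

variable {𝒜 : Type v} [Category.{w} 𝒜] [Abelian 𝒜] {ℬ : Type v'} [Category.{w'} ℬ] [Abelian ℬ]

lemma nsmul_toMdq (A : 𝒜) (q : ℕ) : q • toMdq A q = 0 := by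
  have h : (q • 𝟙 A) ≫ cokernel.π (q • 𝟙 A) = 0 := cokernel.condition _
  rw [Preadditive.nsmul_comp, Category.id_comp] at h
  exact h

lemma epi_toMdq (A : 𝒜) (q : ℕ) : Epi (toMdq A q) := inferInstanceAs (Epi (cokernel.π _))

lemma nsmul_comp_functor (P : 𝒜 ⥤ ℬ) [P.Additive] (A : 𝒜) (q : ℕ) {B : ℬ} (r : B ⟶ P.obj A) :
    (q • 𝟙 B) ≫ r ≫ P.map (toMdq A q) = 0 := by
  rw [Preadditive.nsmul_comp, Category.id_comp, ← Preadditive.comp_nsmul, ← Functor.map_nsmul,
    nsmul_toMdq, Functor.map_zero, comp_zero]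

end general

variable {e : ℕ} (T : Version.{u} (e + 1))

theorem toQ_resM {X Y : Scheme.{u}} (i : Y ⟶ X) (q : ℕ) :
    toQ T X q ≫ resM T i q = redQ T i q := by
  have hadd : (pushF i).Additive := { map_add := rfl }
  have h0 : (q • 𝟙 (T.S X)) ≫ redQ T i q = 0 := nsmul_comp_functor (pushF i) (T.S Y) q (T.res i)
  exact the_spec (P := fun g : Q T X q ⟶ push i (Q T Y q) => toQ T X q ≫ g = redQ T i q)
    ⟨cokernel.desc (q • 𝟙 (T.S X)) (redQ T i q) h0, cokernel.π_desc _ _ _⟩

lemma exists_comp_isIso {G P R : AddCommGrpCat.{u}} (φ : P ⟶ R) (h : IsIso φ) (r : G ⟶ R) :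
    ∃ g : G ⟶ P, g ≫ φ = r := ⟨r ≫ inv φ, by rw [Category.assoc, IsIso.inv_hom_id, Category.comp_id]⟩

theorem resH_pushH {X Y : Scheme.{u}} (i : Y ⟶ X) (hi : Topology.IsClosedEmbedding i.base)
    (q k : ℕ) : resH T i q k ≫ pushH i (Q T Y q) k = onH (resM T i q) k :=
  the_spec (P := fun g : H (Q T X q) k ⟶ H (Q T Y q) k =>
    g ≫ pushH i (Q T Y q) k = onH (resM T i q) k)
    (exists_comp_isIso _ (isIso_pushH i hi (Q T Y q) k) _)

variable (hT : Good T)
include hT

/-- Compatibility of the reductions. -/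
theorem redQ_comp {X Y Z : Scheme.{u}} (j : Z ⟶ Y) (i : Y ⟶ X) (q : ℕ) :
    redQ T i q ≫ (pushF i).map (resM T j q) = redQ T (j ≫ i) q := by
  have e1 : redQ T i q ≫ (pushF i).map (resM T j q) =
      T.res i ≫ (pushF i).map (toQ T Y q ≫ resM T j q) := rfl
  have e2 := congrArg (fun m => T.res i ≫ (pushF i).map m) (toQ_resM T j q)
  have e3 : T.res i ≫ (pushF i).map (redQ T j q) =
      (T.res i ≫ (pushF i).map (T.res j)) ≫ (pushF (j ≫ i)).map (toQ T Z q) := rfl
  have e4 := congrArg (fun m => m ≫ (pushF (j ≫ i)).map (toQ T Z q)) (hT.res_comp j i)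
  exact e1.trans (e2.trans (e3.trans e4.symm))

/-- The restriction maps for `j ≫ i` and `i`. -/
theorem trn_aux {X : Scheme.{u}} [IsNoetherian X] {Y Z : Scheme.{u}} (j : Z ⟶ Y) (i : Y ⟶ X)
    (i' : Z ⟶ X) (hji : j ≫ i = i')
    (hj : Topology.IsClosedEmbedding j.base) (hi : Topology.IsClosedEmbedding i.base)
    (hi' : Topology.IsClosedEmbedding i'.base) (q : ℕ)
    (g : CHq X e q ⟶ H (Q T Y q) (e + 1)) (g' : CHq X e q ⟶ H (Q T Z q) (e + 1))
    (hg : toCHq X e q ≫ g ≫ pushH i (Q T Y q) (e + 1) = cycT T X ≫ onH (redQ T i q) (e + 1))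
    (hg' : toCHq X e q ≫ g' ≫ pushH i' (Q T Z q) (e + 1) =
      cycT T X ≫ onH (redQ T i' q) (e + 1)) :
    g ≫ resH T j q (e + 1) = g' := by
  subst hji
  have hm : Mono (pushH (j ≫ i) (Q T Z q) (e + 1)) := by
    have := isIso_pushH (j ≫ i) hi' (Q T Z q) (e + 1)
    infer_instance
  have he : Epi (toCHq X e q) := inferInstance
  refine hm.right_cancellation _ _ ?_
  refine he.left_cancellation _ _ ?_
  refine Eq.trans ?_ hg'.symm
  -- the left side
  have a1 : (g ≫ resH T j q (e + 1)) ≫ pushH (j ≫ i) (Q T Z q) (e + 1) =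
      (g ≫ pushH i (Q T Y q) (e + 1)) ≫ onH ((pushF i).map (resM T j q)) (e + 1) := by
    have b1 := congrArg (fun m => (g ≫ resH T j q (e + 1)) ≫ m)
      (pushH_comp j i hj hi (Q T Z q) (e + 1))
    have b2 : (g ≫ resH T j q (e + 1)) ≫ pushH j (Q T Z q) (e + 1) ≫
        pushH i (push j (Q T Z q)) (e + 1) =
        g ≫ (resH T j q (e + 1) ≫ pushH j (Q T Z q) (e + 1)) ≫
        pushH i (push j (Q T Z q)) (e + 1) := by
      simp only [Category.assoc]
    have b3 := congrArg (fun m => g ≫ m ≫ pushH i (push j (Q T Z q)) (e + 1))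
      (resH_pushH T j hj q (e + 1))
    have b4 := congrArg (fun m => g ≫ m) (pushH_naturality i hi (resM T j q) (e + 1))
    exact b1.trans (b2.trans (b3.trans (b4.symm.trans (Category.assoc _ _ _).symm)))
  have a2 := congrArg (fun m => toCHq X e q ≫ m) a1
  refine a2.trans ?_
  have a3 := congrArg (fun m => m ≫ onH ((pushF i).map (resM T j q)) (e + 1)) hg
  have a4 : toCHq X e q ≫ (g ≫ pushH i (Q T Y q) (e + 1)) ≫
      onH ((pushF i).map (resM T j q)) (e + 1) =
      (toCHq X e q ≫ g ≫ pushH i (Q T Y q) (e + 1)) ≫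
      onH ((pushF i).map (resM T j q)) (e + 1) := (Category.assoc _ _ _).symm
  refine a4.trans (a3.trans ?_)
  have a5 : (cycT T X ≫ onH (redQ T i q) (e + 1)) ≫ onH ((pushF i).map (resM T j q)) (e + 1) =
      cycT T X ≫ onH (redQ T i q ≫ (pushF i).map (resM T j q)) (e + 1) := by
    have := KB.onH_comp (redQ T i q) ((pushF i).map (resM T j q)) (e + 1)
    exact (Category.assoc _ _ _).trans (congrArg (fun m => cycT T X ≫ m) this.symm)
  refine a5.trans ?_
  exact congrArg (fun m => cycT T X ≫ onH m (e + 1)) (redQ_comp T hT j i q)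

omit hT in
theorem pf_TRN : T_TRN.{u} := by
  intro A _ _ X _ f e q T hT n m h
  let j : thick f n ⟶ thick f m := Clos.thickMap f h
  have hji : j ≫ thickι f m = thickι f n := Clos.thickMap_ι f h
  have hm : IsClosedImmersion (thickι f m) := Clos.isClosedImmersion_thickι f m
  have hn : IsClosedImmersion (thickι f n) := Clos.isClosedImmersion_thickι f n
  have hjc : IsClosedImmersion j := by
    have : IsClosedImmersion (j ≫ thickι f m) := by rw [hji]; exact hn
    exact IsClosedImmersion.of_comp_isClosedImmersion j (thickι f m)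
  refine ⟨j, hji, toQ_resM T j q, resH_pushH T j hjc.isClosedEmbedding q (e + 1), ?_⟩
  intro g g' hg hg'
  exact trn_aux T hT j (thickι f m) (thickι f n) hji hjc.isClosedEmbedding
    hm.isClosedEmbedding hn.isClosedEmbedding q g g' hg hg'

end

end Pool.Agent.H62.KI
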