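import Pool.Agent.H62.KI.IMP
import Pool.Agent.H30.KI.K1

/-!
# Project KEW-I, row MONO: the comparison map is a monomorphism in degree one
-/

namespace Pool.Agent.H62.KI

open AlgebraicGeometry CategoryTheory CategoryTheory.Limits TopologicalSpace Opposite
open Pool.Agent.H15.KS Pool.Agent.H62.KB Pool.Agent.H15.KI
open Pool.Agent.H30.KI (sym1_surj sym1_inj sym1_one toNag_inj)

universe u

noncomputable section

theorem k0_one_inj (R : Type u) [CommRing R] (a : MK R 1) (h : ap (mkMap (toNag R) 1) a = 0) :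
    a = 0 := by
  obtain ⟨x, hx⟩ := sym1_surj (S := R) a
  have h1 : ap (mkMap (toNag R) 1) a = sy fun _ : Fin 1 => Units.map (toNag R).toMonoidHom x := by
    rw [hx]
    exact mkMap_sy (toNag R) fun _ : Fin 1 => x
  have h2 : (sy fun _ : Fin 1 => Units.map (toNag R).toMonoidHom x) =
      (sy fun _ : Fin 1 => (1 : (Nag R)ˣ)) :=
    (h1.symm.trans h).trans (sym1_one (S := Nag R)).symm
  have h3 := sym1_inj (S := Nag R) h2
  have h4 : toNag R (x : R) = toNag R 1 := by
    rw [map_one]
    exact congrArg Units.val h3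
  have h5 : x = 1 := Units.ext (toNag_inj h4)
  rw [hx, h5]
  exact sym1_one

theorem mono_onSh {Φ Ψ : CommRingCat.{u} ⥤ AddCommGrpCat.{u}} (α : Φ ⟶ Ψ) (X : Scheme.{u})
    (h : ∀ U : X.Opens, ∀ a : Φ.obj Γ(X, U), ap (α.app Γ(X, U)) a = 0 → a = 0) :
    Mono (onSh α X) := by
  have h1 : ∀ U, Mono ((Functor.whiskerLeft X.presheaf α).app U) := by
    intro U
    rw [AddCommGrpCat.mono_iff_injective]
    exact (injective_iff_map_eq_zero ((Functor.whiskerLeft X.presheaf α).app U).hom).2
      fun a ha => h U.unop a ha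
  have h2 : Mono (Functor.whiskerLeft X.presheaf α) := NatTrans.mono_of_mono_app _
  exact inferInstanceAs (Mono ((presheafToSheaf (Opens.grothendieckTopology X)
    AddCommGrpCat.{u}).map (Functor.whiskerLeft X.presheaf α)))

/-- MONO: in degree one the comparison map is a monomorphism. -/
theorem pf_MONO (X : Scheme.{u}) : Mono ((improved.{u} 1).c X) := by
  have h1 : Mono (onSh (k0 1) X) := mono_onSh (k0 1) X fun U a ha => k0_one_inj Γ(X, U) a ha
  have h2 := improved_c.{u} 1 X
  have h3 : Mono ((improved.{u} 1).c X ≫ inKI 1 X) := h2.symm ▸ h1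
  exact mono_of_mono ((improved.{u} 1).c X) (inKI 1 X)

end

end Pool.Agent.H62.KI
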