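import Pool.Agent.H62.KI.MDX2
import Pool.Agent.H62.KI.TRN
import Pool.Agent.H62.KI.PULL
import Pool.Agent.H84.KB.S

/-!
# Project KEW-I, row MDX: the data of the general resolution from a good version
-/

open CategoryTheory CategoryTheory.Limits TopologicalSpace Opposite AlgebraicGeometry
open Pool.Agent.H15.KS Pool.Agent.H62.KB Pool.Agent.H15.KI Pool.Agent.H62
open Pool.Agent.H84.KEW (LocSurjAt Shf)

universe u v w

namespace Pool.Agent.H62.KI

noncomputable section

/-- The residue field of a point of `Y` is infinite if the one of its image is infinite. -/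
theorem inf_of_morph {X Y : Scheme.{u}} (i : Y ⟶ X) (y : Y) (h : Inf (i y)) : Inf y := by
  have : Infinite (IsLocalRing.ResidueField (X.presheaf.stalk (i y))) := h
  exact Infinite.of_injective (IsLocalRing.ResidueField.map (i.stalkMap y).hom)
    (RingHom.injective _)

section iso

variable {X : TopCat.{u}} {F' F G : Shf X} (a : F' ≅ F) (φ : F' ⟶ G)

theorem locSurjAt_iso {x : X} (h : LocSurjAt φ x) : LocSurjAt (a.inv ≫ φ) x := by
  intro U hx g
  obtain ⟨V, hV, hxV, f, hf⟩ := h U hx g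
  refine ⟨V, hV, hxV, a.hom.hom.app (op V) f, ?_⟩
  refine Eq.trans ?_ hf
  have h1 := congrArg (fun m => m.hom.app (op V) f) a.hom_inv_id
  exact congrArg (fun z => φ.hom.app (op V) z) h1

theorem injAt_iso {x : X} (h : InjAt φ x) : InjAt (a.inv ≫ φ) x := by
  intro U hx s hs
  obtain ⟨V, hV, hxV, hf⟩ := h U hx (a.inv.hom.app (op U) s) hs
  refine ⟨V, hV, hxV, ?_⟩
  have h1 : a.hom.hom.app (op V) (F'.obj.map (homOfLE hV).op (a.inv.hom.app (op U) s)) =
      a.hom.hom.app (op V) 0 := congrArg _ hf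
  have h2 := ConcreteCategory.congr_hom (a.inv.hom.naturality (homOfLE hV).op) s
  have h3 := congrArg (fun z => a.hom.hom.app (op V) z) h2
  have h4 := congrArg (fun m => m.hom.app (op V) (F.obj.map (homOfLE hV).op s)) a.inv_hom_id
  exact h4.symm.trans (h3.trans (h1.trans (map_zero (a.hom.hom.app (op V)).hom)))

end iso

section cm

variable {𝒜 : Type v} [Category.{w} 𝒜] [Abelian 𝒜] {K S : 𝒜} (c : K ⟶ S) (q : ℕ)

/-- The morphism modulo `q`. -/
def cm : mdq K q ⟶ mdq S q :=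
  cokernel.desc (q • 𝟙 K) (c ≫ toMdq S q) (by
    rw [Preadditive.nsmul_comp, Category.id_comp, ← Preadditive.comp_nsmul, nsmul_toMdq, comp_zero])

lemma toMdq_cm : toMdq K q ≫ cm c q = c ≫ toMdq S q := cokernel.π_desc _ _ _

lemma epi_cm [Epi c] : Epi (cm c q) := by
  have h1 := epi_toMdq S q
  have h2 : Epi (toMdq K q ≫ cm c q) := by
    rw [toMdq_cm]
    exact epi_comp _ _
  exact epi_of_epi (toMdq K q) (cm c q)

lemma mono_cm [IsIso c] : Mono (cm c q) := by
  have h1 := epi_toMdq K q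
  have h2 : cm c q ≫ cm (inv c) q = 𝟙 _ := by
    rw [← cancel_epi (toMdq K q), ← Category.assoc, toMdq_cm, Category.assoc, toMdq_cm,
      IsIso.hom_inv_id_assoc, Category.comp_id]
  have h3 : Mono (cm c q ≫ cm (inv c) q) := by
    rw [h2]
    infer_instance
  exact mono_of_mono (cm c q) (cm (inv c) q)

lemma nsmul_id_mdq : q • 𝟙 (mdq S q) = 0 := by
  have h1 := epi_toMdq S q
  rw [← cancel_epi (toMdq S q), Preadditive.comp_nsmul, Category.comp_id, nsmul_toMdq, comp_zero]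

end cm

/-- The reduction of the Milnor K-sheaf. -/
theorem pull_red {X Y : Scheme.{u}} (i : Y ⟶ X) (q n : ℕ) :
    pull (MKF n) i ≫ (pushF i).map (toKq Y q n) = red i q n := by
  rw [Pool.Agent.H84.KB.red_eq]
  refine Pool.Agent.H84.KB.shf_ext X fun U a => ?_
  refine Eq.trans ?_ (Pool.Agent.H84.KB.red'_spec i q n U a).symm
  exact congrArg (fun z => ap (onSecs (toKq Y q n) (i ⁻¹ᵁ U)) z) (pull_spec (MKF n) i U a)

section md

variable {e : ℕ} (T : Version.{u} (e + 1)) (hT : Good T)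

include hT

theorem c_redQ {X Y : Scheme.{u}} (i : Y ⟶ X) (q : ℕ) :
    T.c X ≫ redQ T i q = red i q (e + 1) ≫ (pushF i).map (cm (T.c Y) q) := by
  have e1 : T.c X ≫ redQ T i q = (T.c X ≫ T.res i) ≫ (pushF i).map (toQ T Y q) :=
    (Category.assoc _ _ _).symm
  have e2 := congrArg (fun m => m ≫ (pushF i).map (toQ T Y q)) (hT.c_res i)
  have e3 : (pull (MKF (e + 1)) i ≫ (pushF i).map (T.c Y)) ≫ (pushF i).map (toQ T Y q) =
      pull (MKF (e + 1)) i ≫ (pushF i).map (T.c Y ≫ toQ T Y q) := rfl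
  have e4 := congrArg (fun m => pull (MKF (e + 1)) i ≫ (pushF i).map m) (toMdq_cm (T.c Y) q)
  have e5 : pull (MKF (e + 1)) i ≫ (pushF i).map (toMdq (K Y (e + 1)) q ≫ cm (T.c Y) q) =
      (pull (MKF (e + 1)) i ≫ (pushF i).map (toKq Y q (e + 1))) ≫
        (pushF i).map (cm (T.c Y) q) := rfl
  have e6 := congrArg (fun m => m ≫ (pushF i).map (cm (T.c Y) q)) (pull_red i q (e + 1))
  exact e1.trans (e2.trans (e3.trans (e4.symm.trans (e5.trans e6))))

/-- The comparison on the thickening. -/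
def cPr {X Y : Scheme.{u}} (i : Y ⟶ X) (q : ℕ) :
    Pool.Agent.H17.KW.dirIm i (Pool.Agent.H17.KW.KModSh Y q (e + 1)) ⟶ push i (Q T Y q) :=
  (Pool.Agent.H84.KB.isoPush i q (e + 1)).inv ≫ (pushF i).map (cm (T.c Y) q)

theorem c_rho {X Y : Scheme.{u}} (i : Y ⟶ X) (q : ℕ) :
    ((Pool.Agent.H84.KB.isoK X (e + 1)).inv ≫ T.c X) ≫ redQ T i q =
      Pool.Agent.H17.KW.redSh i q (e + 1) ≫ cPr T i q := by
  have e1 : ((Pool.Agent.H84.KB.isoK X (e + 1)).inv ≫ T.c X) ≫ redQ T i q =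
      (Pool.Agent.H84.KB.isoK X (e + 1)).inv ≫ T.c X ≫ redQ T i q := Category.assoc _ _ _
  have e2 := congrArg (fun m => (Pool.Agent.H84.KB.isoK X (e + 1)).inv ≫ m) (c_redQ T hT i q)
  have e3 : (Pool.Agent.H84.KB.isoK X (e + 1)).inv ≫ red i q (e + 1) =
      Pool.Agent.H17.KW.redSh i q (e + 1) ≫ (Pool.Agent.H84.KB.isoPush i q (e + 1)).inv := by
    rw [Iso.inv_comp_eq]
    have h := Pool.Agent.H84.KB.red_isoPush i q (e + 1)
    have h1 := congrArg (fun m => m ≫ (Pool.Agent.H84.KB.isoPush i q (e + 1)).inv) h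
    have h2 : (red i q (e + 1) ≫ (Pool.Agent.H84.KB.isoPush i q (e + 1)).hom) ≫
        (Pool.Agent.H84.KB.isoPush i q (e + 1)).inv = red i q (e + 1) := by
      refine (Category.assoc _ _ _).trans ?_
      refine (congrArg (fun m => red i q (e + 1) ≫ m) (Iso.hom_inv_id _)).trans ?_
      exact Category.comp_id _
    exact h2.symm.trans (h1.trans (Category.assoc _ _ _))
  have e4 := congrArg (fun m => m ≫ (pushF i).map (cm (T.c Y) q)) e3
  refine e1.trans (e2.trans ?_)
  refine (Category.assoc _ _ _).symm.trans (e4.trans ?_)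
  exact Category.assoc _ _ _

omit hT in
theorem locSurjAt_cPr {X Y : Scheme.{u}} (i : Y ⟶ X) (hi : Topology.IsClosedEmbedding i.base)
    (q : ℕ) (x : X) (h : ∀ y : Y, i y = x → LocSurjAt (X := Y.toTopCat) (T.c Y) y) :
    LocSurjAt (X := X.toTopCat) (cPr T i q) x :=
  locSurjAt_iso _ _ (locSurjAt_push i.base hi (cm (T.c Y) q) x fun y hy =>
    locSurjAt_mod (X := Y.toTopCat) (T.c Y) q (cm (T.c Y) q) (toMdq_cm (T.c Y) q) (h y hy))

omit hT in
theorem injAt_cPr {X Y : Scheme.{u}} (i : Y ⟶ X) (hi : Topology.IsClosedEmbedding i.base)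
    (q : ℕ) (x : X) (h : ∀ y : Y, i y = x → LocSurjAt (X := Y.toTopCat) (T.c Y) y)
    (h' : ∀ y : Y, i y = x → InjAt (X := Y.toTopCat) (T.c Y) y) :
    InjAt (X := X.toTopCat) (cPr T i q) x :=
  injAt_iso _ _ (injAt_push i.base hi (cm (T.c Y) q) x fun y hy =>
    injAt_mod (X := Y.toTopCat) (T.c Y) q (cm (T.c Y) q) (toMdq_cm (T.c Y) q) (h y hy) (h' y hy))

end md

end

end Pool.Agent.H62.KI
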