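import Pool.Agent.H15.KI.TargetsB
import Pool.Agent.H84.KSJ.NUX

/-!
# Project KEW-I, row MDX: local surjectivity and injectivity modulo `q`, and for direct images
-/

open CategoryTheory TopologicalSpace Opposite Limits
open Pool.Agent.H84.KEW Pool.Agent.H15.KI

universe u

namespace Pool.Agent.H62.KI

noncomputable section

section mod

variable {X : TopCat.{u}}

lemma nsmul_app (F : Shf X) (k : ℕ) (U : (Opens X)ᵒᵖ) (s : F.obj.obj U) :
    (k • 𝟙 F : F ⟶ F).hom.app U s = k • s := by
  induction k with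
  | zero => rw [zero_smul, zero_smul]; rfl
  | succ k ih =>
    rw [add_smul, add_smul, one_smul, one_smul]
    have h : ((k • 𝟙 F + 𝟙 F : F ⟶ F)).hom.app U s =
        (k • 𝟙 F : F ⟶ F).hom.app U s + (𝟙 F : F ⟶ F).hom.app U s := rfl
    rw [h, ih]
    rfl

/-- Sections killed by the cokernel map come locally from the source. -/
theorem local_lift {F G : Shf X} (m : F ⟶ G) {U : Opens X} (s : G.obj.obj (op U))
    (h : (cokernel.π m).hom.app (op U) s = 0) {x : X} (hx : x ∈ U) :
    ∃ (V : Opens X) (hV : V ≤ U), x ∈ V ∧ ∃ t : F.obj.obj (op V),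
      m.hom.app (op V) t = G.obj.map (homOfLE hV).op s := by
  obtain ⟨k, hk⟩ := Pool.Agent.H84.KSJ.lift_kernel (cokernel.π m) s h
  have hepi : Epi (Abelian.factorThruImage m) := inferInstance
  obtain ⟨V, hV, hxV, t, ht⟩ := locSurj_of_epi (Abelian.factorThruImage m) (U := U) k hx
  refine ⟨V, hV, hxV, t, ?_⟩
  have h1 : m = Abelian.factorThruImage m ≫ kernel.ι (cokernel.π m) := (Abelian.image.fac m).symm
  have h2 := congrArg (fun g => g.hom.app (op V) t) h1
  refine h2.trans ?_
  have h3 := congrArg (fun z => (kernel.ι (cokernel.π m)).hom.app (op V) z) ht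
  refine Eq.trans h3 ?_
  have h4 := ConcreteCategory.congr_hom
    ((kernel.ι (cokernel.π m)).hom.naturality (homOfLE hV).op) k
  refine Eq.trans h4 ?_
  exact congrArg (fun z => G.obj.map (homOfLE hV).op z) hk

variable {K S : Shf X} (c : K ⟶ S) (q : ℕ) (cm : mdq K q ⟶ mdq S q)
  (hcm : toMdq K q ≫ cm = c ≫ toMdq S q)

include hcm

theorem locSurjAt_mod {x : X} (h : LocSurjAt c x) : LocSurjAt cm x := by
  intro U hx g
  have hepi : Epi (toMdq S q) := inferInstanceAs (Epi (cokernel.π _))
  obtain ⟨V, hV, hxV, s, hs⟩ := locSurj_of_epi (toMdq S q) (U := U) g hx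
  obtain ⟨W, hW, hxW, k, hk⟩ := h V hxV s
  refine ⟨W, hW.trans hV, hxW, (toMdq K q).hom.app (op W) k, ?_⟩
  have h1 := congrArg (fun m => m.hom.app (op W) k) hcm
  refine Eq.trans h1 ?_
  have h2 := congrArg (fun z => (toMdq S q).hom.app (op W) z) hk
  refine Eq.trans h2 ?_
  have h3 := ConcreteCategory.congr_hom ((toMdq S q).hom.naturality (homOfLE hW).op) s
  refine Eq.trans h3 ?_
  have h4 := congrArg (fun z => (mdq S q).obj.map (homOfLE hW).op z) hs
  refine Eq.trans h4 ?_
  have h5 := ConcreteCategory.congr_hom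
    ((mdq S q).obj.map_comp (homOfLE hV).op (homOfLE hW).op) g
  exact h5.symm

theorem injAt_mod {x : X} (hs : LocSurjAt c x) (hi : InjAt c x) : InjAt cm x := by
  intro U hx g hg
  have hepi : Epi (toMdq K q) := inferInstanceAs (Epi (cokernel.π _))
  obtain ⟨V, hV, hxV, k, hk⟩ := locSurj_of_epi (toMdq K q) (U := U) g hx
  -- `c k` is killed
  have h1 : (toMdq S q).hom.app (op V) (c.hom.app (op V) k) = 0 := by
    have e1 := congrArg (fun m => m.hom.app (op V) k) hcm
    refine Eq.trans e1.symm ?_
    have e2 := congrArg (fun z => cm.hom.app (op V) z) hk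
    refine Eq.trans e2 ?_
    have e3 := ConcreteCategory.congr_hom (cm.hom.naturality (homOfLE hV).op) g
    refine Eq.trans e3 ?_
    have e4 := congrArg (fun z => (mdq S q).obj.map (homOfLE hV).op z) hg
    exact Eq.trans e4 (map_zero ((mdq S q).obj.map (homOfLE hV).op).hom)
  obtain ⟨W, hW, hxW, s, hs1⟩ := local_lift (q • 𝟙 S) (c.hom.app (op V) k) h1 hxV
  obtain ⟨W', hW', hxW', b, hb⟩ := hs W hxW s
  have hle : W' ≤ V := hW'.trans hW
  -- the difference
  let d : K.obj.obj (op W') := K.obj.map (homOfLE hle).op k - q • b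
  have hd : c.hom.app (op W') d = 0 := by
    have e1 : c.hom.app (op W') d = c.hom.app (op W') (K.obj.map (homOfLE hle).op k) -
        c.hom.app (op W') (q • b) := map_sub (c.hom.app (op W')).hom _ _
    have e2 : c.hom.app (op W') (q • b) = q • c.hom.app (op W') b :=
      map_nsmul (c.hom.app (op W')).hom q b
    have e3 := ConcreteCategory.congr_hom (c.hom.naturality (homOfLE hle).op) k
    have e4 : S.obj.map (homOfLE hle).op (c.hom.app (op V) k) =
        S.obj.map (homOfLE hW').op (S.obj.map (homOfLE hW).op (c.hom.app (op V) k)) :=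
      ConcreteCategory.congr_hom (S.obj.map_comp (homOfLE hW).op (homOfLE hW').op)
        (c.hom.app (op V) k)
    have e5 : S.obj.map (homOfLE hW).op (c.hom.app (op V) k) = q • s := by
      refine hs1.symm.trans ?_
      exact nsmul_app S q (op W) s
    rw [e1, e2, hb]
    have e6 : c.hom.app (op W') (K.obj.map (homOfLE hle).op k) =
        q • S.obj.map (homOfLE hW').op s := by
      refine e3.trans (e4.trans ?_)
      refine (congrArg (fun z => S.obj.map (homOfLE hW').op z) e5).trans ?_
      exact map_nsmul (S.obj.map (homOfLE hW').op).hom q s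
    rw [e6, sub_self]
  obtain ⟨W'', hW'', hxW'', hz⟩ := hi W' hxW' d hd
  have hle2 : W'' ≤ V := hW''.trans hle
  refine ⟨W'', hle2.trans hV, hxW'', ?_⟩
  -- `k` is a multiple of `q` on `W''`
  have f1 : K.obj.map (homOfLE hW'').op (K.obj.map (homOfLE hle).op k) =
      q • K.obj.map (homOfLE hW'').op b := by
    have e1 : K.obj.map (homOfLE hW'').op d =
        K.obj.map (homOfLE hW'').op (K.obj.map (homOfLE hle).op k) -
          K.obj.map (homOfLE hW'').op (q • b) := map_sub (K.obj.map (homOfLE hW'').op).hom _ _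
    have e2 : K.obj.map (homOfLE hW'').op (q • b) = q • K.obj.map (homOfLE hW'').op b :=
      map_nsmul (K.obj.map (homOfLE hW'').op).hom q b
    rw [hz, e2] at e1
    exact (sub_eq_zero.1 e1.symm)
  have f2 : K.obj.map (homOfLE hle2).op k = q • K.obj.map (homOfLE hW'').op b := by
    refine Eq.trans ?_ f1
    exact ConcreteCategory.congr_hom (K.obj.map_comp (homOfLE hle).op (homOfLE hW'').op) k
  -- the value
  have g1 : (mdq K q).obj.map (homOfLE (hle2.trans hV)).op g =
      (mdq K q).obj.map (homOfLE hle2).op ((mdq K q).obj.map (homOfLE hV).op g) :=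
    ConcreteCategory.congr_hom ((mdq K q).obj.map_comp (homOfLE hV).op (homOfLE hle2).op) g
  refine g1.trans ?_
  refine (congrArg (fun z => (mdq K q).obj.map (homOfLE hle2).op z) hk.symm).trans ?_
  have g2 := ConcreteCategory.congr_hom ((toMdq K q).hom.naturality (homOfLE hle2).op) k
  refine Eq.trans g2.symm ?_
  refine (congrArg (fun z => (toMdq K q).hom.app (op W'') z) f2).trans ?_
  have g3 : (toMdq K q).hom.app (op W'') (q • K.obj.map (homOfLE hW'').op b) =
      (toMdq K q).hom.app (op W'') ((q • 𝟙 K : K ⟶ K).hom.app (op W'')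
        (K.obj.map (homOfLE hW'').op b)) :=
    congrArg (fun z => (toMdq K q).hom.app (op W'') z) (nsmul_app K q (op W'') _).symm
  refine g3.trans ?_
  have g4 : (q • 𝟙 K) ≫ toMdq K q = 0 := cokernel.condition _
  exact congrArg (fun m => m.hom.app (op W'') (K.obj.map (homOfLE hW'').op b)) g4

end mod

end

end Pool.Agent.H62.KI
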