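import Pool.Agent.H62.KI.MDX1

/-!
# Project KEW-I, row MDX: direct images under closed embeddings
-/

open CategoryTheory TopologicalSpace Opposite Limits
open Pool.Agent.H84.KEW Pool.Agent.H15.KI

universe u

namespace Pool.Agent.H62.KI

noncomputable section

variable {X Y : TopCat.{u}} (i : Y ⟶ X)

/-- Sections over an open set without points are equal. -/
theorem sec_eq_of_empty (F : Shf Y) (U : Opens Y) (h : ∀ y : Y, y ∉ U)
    (s t : F.obj.obj (op U)) : s = t := by
  refine TopCat.Presheaf.section_ext (F := (F : TopCat.Sheaf AddCommGrpCat.{u} Y))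
    (U := U) s t (fun y hy => ?_)
  exact absurd hy (h y)

/-- The direct image. -/
abbrev pf : Shf Y ⥤ Shf X := TopCat.Sheaf.pushforward AddCommGrpCat.{u} i

/-- Neighbourhoods of a point of the subspace are restrictions. -/
theorem exists_open_le (hi : Topology.IsClosedEmbedding i) (U : Opens X) {y : Y}
    (W : Opens Y) (hy : y ∈ W) (hU : i y ∈ U) :
    ∃ (V : Opens X), V ≤ U ∧ i y ∈ V ∧ (Opens.map i).obj V ≤ W := by
  obtain ⟨V', hV', hW⟩ := hi.isInducing.isOpen_iff.1 W.2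
  refine ⟨⟨V', hV'⟩ ⊓ U, inf_le_right, ⟨?_, hU⟩, ?_⟩
  · have : y ∈ i ⁻¹' V' := by rw [hW]; exact hy
    exact this
  · intro z hz
    have h1 : z ∈ i ⁻¹' V' := hz.1
    rw [hW] at h1
    exact h1

/-- Away from the subspace there are neighbourhoods with empty preimage. -/
theorem exists_open_empty (hi : Topology.IsClosedEmbedding i) (U : Opens X) {x : X} (hx : x ∈ U)
    (h : ∀ y, i y ≠ x) : ∃ (V : Opens X), V ≤ U ∧ x ∈ V ∧ ∀ y : Y, y ∉ (Opens.map i).obj V := by
  refine ⟨⟨(Set.range i)ᶜ, hi.isClosed_range.isOpen_compl⟩ ⊓ U, inf_le_right, ⟨?_, hx⟩, ?_⟩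
  · rintro ⟨y, hy⟩
    exact h y hy
  · rintro y ⟨hy, -⟩
    exact hy ⟨y, rfl⟩

theorem locSurjAt_push (hi : Topology.IsClosedEmbedding i) {F G : Shf Y} (φ : F ⟶ G) (x : X)
    (h : ∀ y, i y = x → LocSurjAt φ y) : LocSurjAt ((pf i).map φ) x := by
  intro U hx g
  by_cases hex : ∃ y, i y = x
  · obtain ⟨y, rfl⟩ := hex
    let g' : G.obj.obj (op ((Opens.map i).obj U)) := g
    obtain ⟨W, hW, hyW, f, hf⟩ := h y rfl ((Opens.map i).obj U) hx g'
    obtain ⟨V, hVU, hyV, hVW⟩ := exists_open_le i hi U W hyW hx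
    refine ⟨V, hVU, hyV, F.obj.map (homOfLE hVW).op f, ?_⟩
    have h1 := ConcreteCategory.congr_hom (φ.hom.naturality (homOfLE hVW).op) f
    refine Eq.trans h1 ?_
    refine (congrArg (fun z => G.obj.map (homOfLE hVW).op z) hf).trans ?_
    exact (ConcreteCategory.congr_hom (G.obj.map_comp (homOfLE hW).op (homOfLE hVW).op) g').symm
  · push Not at hex
    obtain ⟨V, hVU, hxV, hV⟩ := exists_open_empty i hi U hx hex
    exact ⟨V, hVU, hxV, (0 : F.obj.obj (op ((Opens.map i).obj V))),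
      sec_eq_of_empty G ((Opens.map i).obj V) hV _ _⟩

theorem injAt_push (hi : Topology.IsClosedEmbedding i) {F G : Shf Y} (φ : F ⟶ G) (x : X)
    (h : ∀ y, i y = x → InjAt φ y) : InjAt ((pf i).map φ) x := by
  intro U hx g hg
  by_cases hex : ∃ y, i y = x
  · obtain ⟨y, rfl⟩ := hex
    let g' : F.obj.obj (op ((Opens.map i).obj U)) := g
    obtain ⟨W, hW, hyW, hf⟩ := h y rfl ((Opens.map i).obj U) hx g' hg
    obtain ⟨V, hVU, hyV, hVW⟩ := exists_open_le i hi U W hyW hx
    refine ⟨V, hVU, hyV, ?_⟩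
    have h1 := ConcreteCategory.congr_hom (F.obj.map_comp (homOfLE hW).op (homOfLE hVW).op) g'
    refine Eq.trans h1 ?_
    exact (congrArg (fun z => F.obj.map (homOfLE hVW).op z) hf).trans
      (map_zero (F.obj.map (homOfLE hVW).op).hom)
  · push Not at hex
    obtain ⟨V, hVU, hxV, hV⟩ := exists_open_empty i hi U hx hex
    exact ⟨V, hVU, hxV, sec_eq_of_empty F ((Opens.map i).obj V) hV _ _⟩

end

end Pool.Agent.H62.KI
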