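import Pool.Agent.H62.KB.P

/-!
# Project KEW-I, row TRN: functoriality of the map `H^n(Y, F) → H^n(X, i_* F)`
-/

open CategoryTheory CategoryTheory.Limits TopologicalSpace Opposite AlgebraicGeometry Abelian

namespace Pool.Agent.H62.KI

noncomputable section

section ext

universe w w' w'' v v' v'' u u' u''

open Pool.Agent.H62

variable {C : Type u} [Category.{v} C] [Abelian C] [HasExt.{w} C] [EnoughInjectives C]
  {D : Type u'} [Category.{v'} D] [Abelian D] [HasExt.{w'} D]
  {E : Type u''} [Category.{v''} E] [Abelian E] [HasExt.{w''} E]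
  (R : C ⥤ D) [R.Additive] [PreservesFiniteLimits R] [PreservesFiniteColimits R]
  (R' : D ⥤ E) [R'.Additive] [PreservesFiniteLimits R'] [PreservesFiniteColimits R']
  {A : C} {B : D} {B' : E} (k : B ⟶ R.obj A) (k' : B' ⟶ R'.obj B)

omit [EnoughInjectives C] in
theorem extPush_extClass {T : ShortComplex C} (hT : T.ShortExact) (n : ℕ) (y : Ext.{w} A T.X₃ n) :
    Clos.extPush R k T.X₁ (n + 1) (y.comp hT.extClass rfl) =
      (Clos.extPush R k T.X₃ n y).comp (hT.map_of_exact R).extClass rfl := by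
  rw [Clos.extPush_comp, Ext.mapExactFunctor_extClass]
  rfl

theorem extPush_extPush (F : C) (n : ℕ) (x : Ext.{w} A F n) :
    Clos.extPush (R ⋙ R') (k' ≫ R'.map k) F n x =
      Clos.extPush R' k' (R.obj F) n (Clos.extPush R k F n x) := by
  induction n generalizing F with
  | zero =>
    obtain ⟨f, rfl⟩ := (Ext.mk₀_bijective _ _).2 x
    have e1 : Clos.extPush R k F 0 (Ext.mk₀ f) = Ext.mk₀ (k ≫ R.map f) := by
      rw [Clos.extPush_apply, Ext.mapExactFunctor_mk₀, Ext.mk₀_comp_mk₀]
    have e2 : Clos.extPush (R ⋙ R') (k' ≫ R'.map k) F 0 (Ext.mk₀ f) =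
        Ext.mk₀ ((k' ≫ R'.map k) ≫ (R ⋙ R').map f) := by
      rw [Clos.extPush_apply, Ext.mapExactFunctor_mk₀, Ext.mk₀_comp_mk₀]
    have e3 : Clos.extPush R' k' (R.obj F) 0 (Ext.mk₀ (k ≫ R.map f)) =
        Ext.mk₀ (k' ≫ R'.map (k ≫ R.map f)) := by
      rw [Clos.extPush_apply, Ext.mapExactFunctor_mk₀, Ext.mk₀_comp_mk₀]
    rw [e1, e2, e3]
    congr 1
    rw [Functor.map_comp, Category.assoc]
    rfl
  | succ n ih =>
    let S : ShortComplex C := ShortComplex.mk (Injective.ι F) (Limits.cokernel.π _)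
      (Limits.cokernel.condition _)
    have hS : S.ShortExact := ShortComplex.ShortExact.mk' (ShortComplex.exact_cokernel _)
      (inferInstanceAs (Mono (Injective.ι F))) (inferInstanceAs (Epi (Limits.cokernel.π _)))
    have hinj : Injective S.X₂ := inferInstanceAs (Injective (Injective.under F))
    obtain ⟨y, hy⟩ := Ext.covariant_sequence_exact₁ _ hS x (Ext.eq_zero_of_injective _) rfl
    have e1 : Clos.extPush R k S.X₁ (n + 1) (y.comp hS.extClass rfl) =
        (Clos.extPush R k S.X₃ n y).comp (hS.map_of_exact R).extClass rfl :=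
      extPush_extClass R k hS n y
    have e2 : Clos.extPush (R ⋙ R') (k' ≫ R'.map k) S.X₁ (n + 1) (y.comp hS.extClass rfl) =
        (Clos.extPush (R ⋙ R') (k' ≫ R'.map k) S.X₃ n y).comp
          (hS.map_of_exact (R ⋙ R')).extClass rfl :=
      extPush_extClass (R ⋙ R') (k' ≫ R'.map k) hS n y
    have e3 : Clos.extPush R' k' (S.map R).X₁ (n + 1)
          ((Clos.extPush R k S.X₃ n y).comp (hS.map_of_exact R).extClass rfl) =
        (Clos.extPush R' k' (S.map R).X₃ n (Clos.extPush R k S.X₃ n y)).comp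
          ((hS.map_of_exact R).map_of_exact R').extClass rfl :=
      extPush_extClass R' k' (hS.map_of_exact R) n (Clos.extPush R k S.X₃ n y)
    rw [← hy]
    refine e2.trans ?_
    refine Eq.trans ?_ (congrArg (fun z => Clos.extPush R' k' (R.obj F) (n + 1) z) e1).symm
    refine Eq.trans ?_ e3.symm
    rw [ih]
    rfl

end ext

section push

universe u

open Pool.Agent.H15.KS Pool.Agent.H62.KB Pool.Agent.H62

variable {X Y Z : Scheme.{u}} (j : Z ⟶ Y) (i : Y ⟶ X)

theorem unitZ_comp : unitZ (j ≫ i) = unitZ i ≫ (pushF i).map (unitZ j) := by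
  refine hom_ext_one ?_
  have h1 : ∀ {X Y : Scheme.{u}} (i : Y ⟶ X), ap (onSecs (unitZ i) ⊤) (one X) = one Y := by
    intro X Y i
    rw [unitZ_eq]
    exact uZ_one i
  refine (h1 (j ≫ i)).trans ?_
  have h2 : ap (onSecs (unitZ i ≫ (pushF i).map (unitZ j)) ⊤) (one X) =
      ap (onSecs (unitZ j) ⊤) (ap (onSecs (unitZ i) ⊤) (one X)) := rfl
  exact (h2.trans ((congrArg (ap (onSecs (unitZ j) ⊤)) (h1 i)).trans (h1 j))).symm

/-- Functoriality of the map `H^n(Y, F) → H^n(X, i_* F)`. -/
theorem pushH_comp (hj : Topology.IsClosedEmbedding j.base) (hi : Topology.IsClosedEmbedding i.base)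
    (F : AbSh Z) (n : ℕ) : pushH (j ≫ i) F n = pushH j F n ≫ pushH i (push j F) n := by
  have hji : Topology.IsClosedEmbedding (j ≫ i).base := by
    have := hi.comp hj
    exact this
  have a1 : (pushF i).Additive := { map_add := rfl }
  have a2 : PreservesFiniteLimits (pushF i) := (Clos.exact_R i.base hi).1
  have a3 : PreservesFiniteColimits (pushF i) := (Clos.exact_R i.base hi).2
  have b1 : (pushF j).Additive := { map_add := rfl }
  have b2 : PreservesFiniteLimits (pushF j) := (Clos.exact_R j.base hj).1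
  have b3 : PreservesFiniteColimits (pushF j) := (Clos.exact_R j.base hj).2
  have c1 : (pushF (j ≫ i)).Additive := { map_add := rfl }
  have c2 : PreservesFiniteLimits (pushF (j ≫ i)) := (Clos.exact_R (j ≫ i).base hji).1
  have c3 : PreservesFiniteColimits (pushF (j ≫ i)) := (Clos.exact_R (j ≫ i).base hji).2
  refine AddCommGrpCat.hom_ext (AddMonoidHom.ext fun x => ?_)
  have e1 := ap_extPush (pushF (j ≫ i)) (unitZ (j ≫ i)) F n x
  have e2 := ap_extPush (pushF j) (unitZ j) F n x
  have e3 := ap_extPush (pushF i) (unitZ i) (push j F) n (ap (pushH j F n) x)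
  refine e1.trans ?_
  refine Eq.trans ?_ e3.symm
  have e4 := extPush_extPush (pushF j) (pushF i) (unitZ j) (unitZ i) F n x
  rw [unitZ_comp]
  refine Eq.trans ?_ (e4.trans (congrArg (fun z => Clos.extPush (pushF i) (unitZ i) (push j F) n z)
    e2.symm))
  rfl

/-- Naturality of the map `H^n(Y, F) → H^n(X, i_* F)`. -/
theorem pushH_naturality (hi : Topology.IsClosedEmbedding i.base) {F G : AbSh Y} (g : F ⟶ G)
    (n : ℕ) : pushH i F n ≫ onH ((pushF i).map g) n = onH g n ≫ pushH i G n := by
  refine AddCommGrpCat.hom_ext (AddMonoidHom.ext fun x => ?_)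
  have e1 : ap (onH ((pushF i).map g) n) (ap (pushH i F n) x) =
      Sheaf.H.map ((pushF i).map g) n (Clos.push i.base hi F n x) :=
    congrArg (fun z => Sheaf.H.map ((pushF i).map g) n z) (ap_pushH i hi F n x)
  have e2 : ap (pushH i G n) (ap (onH g n) x) =
      Clos.push i.base hi G n (Sheaf.H.map g n x) := ap_pushH i hi G n (ap (onH g n) x)
  refine e1.trans (Eq.trans ?_ e2.symm)
  exact (Clos.push_map i.base hi g n x).symm

end push

end

end Pool.Agent.H62.KI
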